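import Pool.Agent.N375.AV.D
import Pool.Agent.Results.MP_5317dd_nt.SharpPowerSaving

/-!
# Wiggin's maps: the orbits of all integers near values of additive functions and their compositions

Let `F = f_1 ∘ ⋯ ∘ f_k` be a composition of functions dominated by the largest prime factor: for example additive functions
`f` with `f (q^j) ≤ C q^j` at the prime powers, with different values at different large primes (the sum of the prime factors),
the largest prime factor itself, and Kempner's function. Let `D ≥ 2`. There is `γ > 1 - H_D (log D / log (D + 1)) / log D`,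
`γ > 0`, `H_D` the `D`-ary entropy, such that the following holds for `0 < η ≤ 1` and functions `G` with steps bounded below by a
positive constant and growth at most `v ^ d`, for example `G v = v`, `κ ≥ 0` and `d (1 - γ η) + κ < 1`. For all `m ≤ N` but
`K N exp (- c (log N)^(1 / (k + 1)))`, the orbit of EVERY integer `n ≥ 1` with `|n - G (F m)| ≤ F(m) ^ κ` under Wiggin's map `F_D`
comes down to a value `≤ n ^ η`. The values of `F` are taken with very large multiplicities and `F(m)` is in general much smaller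
than `m`; and so this does not follow from the number of exceptional `n`.

Proof. The preimage of a set with at most `K X exp (- c (log X)^β)` elements up to `X` under a function dominated by the largest
prime factor has at most `K' X exp (- c' (log X)^(β / (1 + β)))` elements. The exceptional set has a power saving by the
starting theorem `SharpPowerSaving` of this problem.
-/

set_option autoImplicit false

namespace Pool.Agent.Results.MP_5317dd_nt.AdditiveValues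

open Finset
open Pool.Agent.N733.TG (Expanding expanding_pow)
open Pool.Agent.N375.AV (PD comp good_nat pd_additive pd_largest pd_kempner)

/-- Wiggin's map `F_D`. -/
def F (D x : ℕ) : ℕ :=
  if x % D = 0 then x / D
  else if x % D = D - 1 then (D + 1) * x + 1
  else (D + 1) * x - x % D

/-- the orbit of `n` under `F_D` comes down to a value at most `n ^ η` -/
def ComesDown (D : ℕ) (η : ℝ) (n : ℕ) : Prop := ∃ k : ℕ, (((F D)^[k] n : ℕ) : ℝ) ≤ (n : ℝ) ^ η

/-- the entropy exponent -/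
noncomputable def c₀ (D : ℕ) : ℝ := 1 - Real.qaryEntropy D (Real.log D / Real.log (D + 1)) / Real.log D

lemma c₀_lt {D : ℕ} (hD : 2 ≤ D) : c₀ D < 1 := by
  have hDR : (2 : ℝ) ≤ D := by exact_mod_cast hD
  have h3 : 0 < Real.log D := Real.log_pos (by linarith)
  have h4 : Real.log D < Real.log (D + 1) := Real.log_lt_log (by linarith) (by linarith)
  have h5 : 0 < Real.qaryEntropy D (Real.log D / Real.log (D + 1)) := by
    apply Real.qaryEntropy_pos
    · exact div_pos h3 (by linarith)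
    · rw [div_lt_one (by linarith)]
      exact h4
  unfold c₀
  have : 0 < Real.qaryEntropy D (Real.log D / Real.log (D + 1)) / Real.log D := div_pos h5 h3
  linarith

lemma sharp (D : ℕ) (hD : 2 ≤ D) : ∃ c : ℝ, (0 < c ∧ c < 1 ∧ c₀ D < c) ∧
    ∃ C : ℝ, 0 < C ∧ ∀ X y : ℝ, 1 ≤ X → 1 ≤ y →
      ({n : ℕ | 1 ≤ n ∧ (n : ℝ) ≤ X ∧ ∀ k : ℕ, y < (((SharpPowerSaving.F D)^[k] n : ℕ) : ℝ)}.ncard : ℝ)
        ≤ C * X / y ^ c := by
  obtain ⟨c, hc0, hc1, C, hC, h⟩ := SharpPowerSaving.result D hD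
  have hlt := c₀_lt hD
  have hc1' : c₀ D < c := hc1
  refine ⟨max (min c ((1 + c₀ D) / 2)) (min c (1 / 2)), ⟨?_, ?_, ?_⟩, C, hC, fun X y hX hy => ?_⟩
  · exact lt_max_of_lt_right (lt_min hc0 (by norm_num))
  · exact max_lt (min_lt_of_right_lt (by linarith)) (min_lt_of_right_lt (by norm_num))
  · exact lt_max_of_lt_left (lt_min hc1' (by linarith))
  · refine (h X y hX hy).trans ?_
    have hle : max (min c ((1 + c₀ D) / 2)) (min c (1 / 2)) ≤ c := max_le (min_le_left _ _) (min_le_left _ _)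
    have h2 := Real.rpow_le_rpow_of_exponent_le hy hle
    have h3 : 0 < y ^ max (min c ((1 + c₀ D) / 2)) (min c (1 / 2)) := Real.rpow_pos_of_pos (by linarith) _
    exact div_le_div_of_nonneg_left (by positivity) h3 h2

lemma count (D : ℕ) {c : ℝ} (hc0 : 0 < c) (hc1 : c < 1)
    (hc : ∃ C : ℝ, 0 < C ∧ ∀ X y : ℝ, 1 ≤ X → 1 ≤ y →
      ({n : ℕ | 1 ≤ n ∧ (n : ℝ) ≤ X ∧ ∀ k : ℕ, y < (((SharpPowerSaving.F D)^[k] n : ℕ) : ℝ)}.ncard : ℝ)
        ≤ C * X / y ^ c) (η : ℝ) (hη : 0 < η) (hη1 : η ≤ 1) : ∃ K : ℝ, ∀ X : ℕ, 1 ≤ X →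
    ({n : ℕ | 1 ≤ n ∧ n ≤ X ∧ ¬ ComesDown D η n}.ncard : ℝ) ≤ K * (X : ℝ) ^ (1 - c * η) := by
  obtain ⟨C, hC, h⟩ := hc
  obtain ⟨s, hs⟩ : ∃ s : ℝ, s = 1 - c * η := ⟨_, rfl⟩
  rw [← hs]
  have hcη : c * η < 1 := by nlinarith
  have hcη0 : 0 < c * η := by positivity
  have hs0 : 0 < s := by linarith
  have h2s : (2 : ℝ) ^ (-s) < 1 := Real.rpow_lt_one_of_one_lt_of_neg (by norm_num) (by linarith)
  obtain ⟨K, hK⟩ : ∃ K : ℝ, K = 2 * C / (1 - (2 : ℝ) ^ (-s)) + 1 := ⟨_, rfl⟩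
  have h1s : 0 < 1 - (2 : ℝ) ^ (-s) := by linarith
  have hK1 : 1 ≤ K := by
    rw [hK]
    have : 0 ≤ 2 * C / (1 - (2 : ℝ) ^ (-s)) := by positivity
    linarith
  have hKC : 2 * C ≤ K * (1 - (2 : ℝ) ^ (-s)) := by
    rw [hK, add_mul, div_mul_cancel₀ _ h1s.ne']
    linarith
  refine ⟨K, fun X => ?_⟩
  induction X using Nat.strong_induction_on with
  | _ X ih =>
    intro hX
    have hfin : ∀ Y : ℕ, {n : ℕ | 1 ≤ n ∧ n ≤ Y ∧ ¬ ComesDown D η n}.Finite := fun Y =>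
      (Set.finite_Icc 1 Y).subset fun n hn => ⟨hn.1, hn.2.1⟩
    rcases Nat.lt_or_ge X 2 with h2 | h2
    · have hX1 : X = 1 := by omega
      subst hX1
      have h3 : {n : ℕ | 1 ≤ n ∧ n ≤ 1 ∧ ¬ ComesDown D η n} ⊆ {1} := by
        rintro n ⟨h3, h4, -⟩
        exact le_antisymm h4 h3
      have h4 := Set.ncard_le_ncard h3 (Set.finite_singleton 1)
      rw [Set.ncard_singleton] at h4
      have h5 : (({n : ℕ | 1 ≤ n ∧ n ≤ 1 ∧ ¬ ComesDown D η n}.ncard : ℕ) : ℝ) ≤ 1 := by exact_mod_cast h4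
      rw [Nat.cast_one, Real.one_rpow]
      linarith
    · obtain ⟨Y, hY⟩ : ∃ Y : ℕ, Y = X / 2 := ⟨_, rfl⟩
      have hY1 : 1 ≤ Y := by omega
      have hYX : Y < X := by omega
      have hXR : (2 : ℝ) ≤ X := by exact_mod_cast h2
      have hX0 : (0 : ℝ) < X := by linarith
      have hYR : (Y : ℝ) ≤ X / 2 := by
        rw [le_div_iff₀ (by norm_num)]
        have : Y * 2 ≤ X := by omega
        exact_mod_cast this
      have i1 := ih Y hYX hY1
      obtain ⟨y, hy⟩ : ∃ y : ℝ, y = ((X : ℝ) / 2) ^ η := ⟨_, rfl⟩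
      have hy1 : 1 ≤ y := by
        rw [hy]
        exact Real.one_le_rpow (by linarith) hη.le
      have i2 := h X y (by linarith) hy1
      have hfin2 : {n : ℕ | 1 ≤ n ∧ (n : ℝ) ≤ X ∧ ∀ k : ℕ, y < (((SharpPowerSaving.F D)^[k] n : ℕ) : ℝ)}.Finite :=
        (Set.finite_Icc 1 X).subset fun n hn => ⟨hn.1, by exact_mod_cast hn.2.1⟩
      have hsub : {n : ℕ | 1 ≤ n ∧ n ≤ X ∧ ¬ ComesDown D η n} ⊆
          {n : ℕ | 1 ≤ n ∧ n ≤ Y ∧ ¬ ComesDown D η n} ∪
          {n : ℕ | 1 ≤ n ∧ (n : ℝ) ≤ X ∧ ∀ k : ℕ, y < (((SharpPowerSaving.F D)^[k] n : ℕ) : ℝ)} := by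
        rintro n ⟨g1, g2, g3⟩
        rcases Nat.lt_or_ge Y n with g4 | g4
        · right
          refine ⟨g1, by exact_mod_cast g2, fun k => ?_⟩
          unfold ComesDown at g3
          push Not at g3
          refine lt_of_le_of_lt ?_ (g3 k)
          rw [hy]
          apply Real.rpow_le_rpow (by positivity) _ hη.le
          rw [div_le_iff₀ (by norm_num)]
          have : X ≤ n * 2 := by omega
          exact_mod_cast this
        · left
          exact ⟨g1, g4, g3⟩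
      have j1 : ({n : ℕ | 1 ≤ n ∧ n ≤ X ∧ ¬ ComesDown D η n}.ncard : ℝ) ≤
          ({n : ℕ | 1 ≤ n ∧ n ≤ Y ∧ ¬ ComesDown D η n}.ncard : ℝ) +
          ({n : ℕ | 1 ≤ n ∧ (n : ℝ) ≤ X ∧ ∀ k : ℕ, y < (((SharpPowerSaving.F D)^[k] n : ℕ) : ℝ)}.ncard : ℝ) := by
        have := (Set.ncard_le_ncard hsub ((hfin Y).union hfin2)).trans (Set.ncard_union_le _ _)
        exact_mod_cast this
      have j2 : K * (Y : ℝ) ^ s ≤ K * (2 : ℝ) ^ (-s) * (X : ℝ) ^ s := by
        have : (Y : ℝ) ^ s ≤ (2 : ℝ) ^ (-s) * (X : ℝ) ^ s := by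
          calc (Y : ℝ) ^ s ≤ ((X : ℝ) / 2) ^ s := Real.rpow_le_rpow (Nat.cast_nonneg _) hYR hs0.le
            _ = (2 : ℝ) ^ (-s) * (X : ℝ) ^ s := by
                rw [Real.div_rpow hX0.le (by norm_num), Real.rpow_neg (by norm_num)]
                ring
        calc K * (Y : ℝ) ^ s ≤ K * ((2 : ℝ) ^ (-s) * (X : ℝ) ^ s) := mul_le_mul_of_nonneg_left this (by linarith)
          _ = _ := by ring
      have j3 : C * X / y ^ c ≤ 2 * C * (X : ℝ) ^ s := by
        have e1 : y ^ c = ((X : ℝ) / 2) ^ (c * η) := by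
          rw [hy, ← Real.rpow_mul (by positivity)]
          ring_nf
        have e2 : ((X : ℝ)) ^ (c * η) ≤ 2 * ((X : ℝ) / 2) ^ (c * η) := by
          have e3 : (X : ℝ) = 2 * ((X : ℝ) / 2) := by ring
          have e4 : (2 : ℝ) ^ (c * η) ≤ 2 := by
            calc (2 : ℝ) ^ (c * η) ≤ (2 : ℝ) ^ (1 : ℝ) :=
                  Real.rpow_le_rpow_of_exponent_le (by norm_num) hcη.le
              _ = 2 := Real.rpow_one 2
          calc (X : ℝ) ^ (c * η) = (2 * ((X : ℝ) / 2)) ^ (c * η) := by rw [← e3]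
            _ = (2 : ℝ) ^ (c * η) * ((X : ℝ) / 2) ^ (c * η) := Real.mul_rpow (by norm_num) (by positivity)
            _ ≤ _ := mul_le_mul_of_nonneg_right e4 (by positivity)
        rw [e1, div_le_iff₀ (by positivity)]
        have e5 : (X : ℝ) = (X : ℝ) ^ s * (X : ℝ) ^ (c * η) := by
          rw [← Real.rpow_add hX0, hs, sub_add_cancel, Real.rpow_one]
        have e6 : 0 < (X : ℝ) ^ s := by positivity
        calc C * (X : ℝ) = C * ((X : ℝ) ^ s * (X : ℝ) ^ (c * η)) := by rw [← e5]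
          _ ≤ C * ((X : ℝ) ^ s * (2 * ((X : ℝ) / 2) ^ (c * η))) := by
              apply mul_le_mul_of_nonneg_left _ hC.le
              exact mul_le_mul_of_nonneg_left e2 e6.le
          _ = _ := by ring
      have e6 : 0 < (X : ℝ) ^ s := by positivity
      nlinarith

lemma countε (D : ℕ) {c : ℝ} (hc0 : 0 < c) (hc1 : c < 1)
    (hc : ∃ C : ℝ, 0 < C ∧ ∀ X y : ℝ, 1 ≤ X → 1 ≤ y →
      ({n : ℕ | 1 ≤ n ∧ (n : ℝ) ≤ X ∧ ∀ k : ℕ, y < (((SharpPowerSaving.F D)^[k] n : ℕ) : ℝ)}.ncard : ℝ)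
        ≤ C * X / y ^ c) (η : ℝ) (hη : 0 < η) (hη1 : η ≤ 1) (ε : ℝ) (hε : 0 < ε) : ∃ K : ℝ, ∀ X : ℕ, 1 ≤ X →
    ({n : ℕ | 1 ≤ n ∧ n ≤ X ∧ True ∧ ¬ ComesDown D η n}.ncard : ℝ) ≤ K * (X : ℝ) ^ (1 - c * η + ε) := by
  obtain ⟨K, hK⟩ := count D hc0 hc1 hc η hη hη1
  refine ⟨|K|, fun X hX => ?_⟩
  have hX1 : (1 : ℝ) ≤ X := by exact_mod_cast hX
  simp only [true_and]
  calc _ ≤ K * (X : ℝ) ^ (1 - c * η) := hK X hX
    _ ≤ |K| * (X : ℝ) ^ (1 - c * η) := mul_le_mul_of_nonneg_right (le_abs_self K) (by positivity)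
    _ ≤ |K| * (X : ℝ) ^ (1 - c * η + ε) := mul_le_mul_of_nonneg_left
        (Real.rpow_le_rpow_of_exponent_le hX1 (by linarith)) (abs_nonneg K)

/-- **Wiggin's maps near the values of compositions of additive functions.** Let `F = f_1 ∘ ⋯ ∘ f_k`, `f_i` dominated by the
largest prime factor, `D ≥ 2`. There is `γ > 0`, `γ > 1 - H_D (log D / log (D + 1)) / log D` (`H_D` the `D`-ary entropy), such that
for all `0 < η ≤ 1`, `G` with steps `≥ a > 0` and growth at most `v ^ d`, `κ ≥ 0` with `d (1 - γ η) + κ < 1`: for all `m ≤ N` but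
`K N exp (- c (log N)^(1 / (k + 1)))`, the orbit of EVERY integer `n ≥ 1` with `|n - G (F m)| ≤ F(m) ^ κ` under `F_D` comes down to
a value `≤ n ^ η`. The additive functions with `f (q^j) ≤ C q^j` which are injective at the large primes, the largest prime
factor and Kempner's function are examples of such functions `f_i`, and `α v ^ d` with `α > 0`, `d ≥ 1` is an example of `G`. -/
theorem result :
    (∀ D : ℕ, 2 ≤ D → ∃ γ : ℝ, (0 < γ ∧ γ < 1 ∧ c₀ D < γ) ∧ ∀ fs : List (ℕ → ℕ), (∀ f ∈ fs, PD f) →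
      ∀ (G : ℕ → ℝ) (d : ℝ), Expanding G d → ∀ η κ : ℝ, 0 < η → η ≤ 1 → 0 ≤ κ → d * (1 - γ * η) + κ < 1 →
      ∃ c K : ℝ, 0 < c ∧ ∀ N : ℕ, 1 ≤ N →
      ({m : ℕ | 1 ≤ m ∧ m ≤ N ∧ ¬ ∀ n : ℕ, 1 ≤ n → |(n : ℝ) - G (comp fs m)| ≤ (comp fs m : ℝ) ^ κ →
        ComesDown D η n}.ncard : ℝ) ≤ K * N * Real.exp (-(c * Real.log N ^ ((1 : ℝ) / (fs.length + 1))))) ∧
    (∀ f : ℕ → ℕ, (∀ a b : ℕ, Nat.Coprime a b → f (a * b) = f a + f b) →
      (∃ C : ℕ, ∀ q j : ℕ, q.Prime → 1 ≤ j → f (q ^ j) ≤ C * q ^ j) →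
      (∃ P : ℕ, ∀ p q : ℕ, p.Prime → q.Prime → P ≤ p → P ≤ q → f p = f q → p = q) → PD f) ∧
    (PD (fun n => n.primeFactors.sup id) ∧ PD (fun n => sInf {k : ℕ | n ∣ k.factorial})) ∧
    ∀ α d : ℝ, 0 < α → 1 ≤ d → Expanding (fun v => α * (v : ℝ) ^ d) d := by
  refine ⟨fun D hD => ?_, fun f h2 h3 h4 => pd_additive h2 h3 h4, ⟨pd_largest, pd_kempner⟩,
    fun α d hα hd => expanding_pow hα hd⟩
  obtain ⟨γ, hγ, hcount⟩ := sharp D hD
  refine ⟨γ, hγ, fun fs hfs G d hG η κ hη hη1 hκ h1 => ?_⟩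
  obtain ⟨c, K, hc, hcK⟩ := good_nat (fun _ => True) (ComesDown D η) fs hfs hG (s := 1 - γ * η) (κ := κ)
    (by nlinarith [hγ.1, hγ.2.1]) hκ h1 (fun ε hε => countε D hγ.1 hγ.2.1 hcount η hη hη1 ε hε)
  refine ⟨c, K, hc, fun N hN => le_trans (le_of_eq ?_) (hcK N hN)⟩
  simp only [true_imp_iff, forall_true_left]

end Pool.Agent.Results.MP_5317dd_nt.AdditiveValues
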