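import Pool.Agent.N760.TG.U
import Pool.Agent.Results.MP_5317dd_nt.PowerSaving

/-!
# Wiggin's maps: the orbits of all integers near values of multiplicative functions

Let `f` be a positive multiplicative function of at most polynomial growth such that `f p ≤ M p` for the large primes `p`,
with different values at different large primes; for example Euler's function or the sum of the divisors. Let `D ≥ 2`,
`c = 1 / (30 D log D)`, `0 < η ≤ 1`, and let `G` have steps bounded below by a positive constant and growth at most `v ^ d`, for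
example `G v = v`; `κ ≥ 0` and `d (1 - c η) + κ < 1`. For all `m ≤ N` but `N / (log N) ^ U`, the orbit of EVERY integer `n ≥ 1`
with `|n - G (f m)| ≤ f(m) ^ κ` under Wiggin's map `F_D` comes down to a value `≤ n ^ η`. The values of `f` are in general taken
with very large multiplicities, and so this does not follow from the number of exceptional `n`.
-/

set_option autoImplicit false

namespace Pool.Agent.Results.MP_5317dd_nt.MultiplicativeValues

open Finset
open Pool.Agent.N733.TG (LM Expanding lm_totient lm_sigma expanding_pow)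

/-- Wiggin's map `F_D`. -/
def F (D x : ℕ) : ℕ :=
  if x % D = 0 then x / D
  else if x % D = D - 1 then (D + 1) * x + 1
  else (D + 1) * x - x % D

/-- the orbit of `n` under `F_D` comes down to a value at most `n ^ η` -/
def ComesDown (D : ℕ) (η : ℝ) (n : ℕ) : Prop := ∃ k : ℕ, (((F D)^[k] n : ℕ) : ℝ) ≤ (n : ℝ) ^ η

lemma cpos {D : ℕ} (hD : 2 ≤ D) : 0 < 1 / (30 * (D : ℝ) * Real.log D) ∧ 1 / (30 * (D : ℝ) * Real.log D) < 1 := by
  have hDR : (2 : ℝ) ≤ D := by exact_mod_cast hD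
  have h1 : Real.log 2 ≤ Real.log D := Real.log_le_log (by norm_num) hDR
  have h2 := Real.log_two_gt_d9
  have h3 : 0 < Real.log D := by linarith
  refine ⟨by positivity, ?_⟩
  rw [div_lt_one (by positivity)]
  nlinarith

lemma count (D : ℕ) (hD : 2 ≤ D) (η : ℝ) (hη : 0 < η) (hη1 : η ≤ 1) : ∃ K : ℝ, ∀ X : ℕ, 1 ≤ X →
    ({n : ℕ | 1 ≤ n ∧ n ≤ X ∧ ¬ ComesDown D η n}.ncard : ℝ) ≤
      K * (X : ℝ) ^ (1 - 1 / (30 * (D : ℝ) * Real.log D) * η) := by
  obtain ⟨hc0, hc1⟩ := cpos hD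
  obtain ⟨⟨C, hC, h⟩, -⟩ := PowerSaving.result D hD
  obtain ⟨c, hc⟩ : ∃ c : ℝ, c = 1 / (30 * (D : ℝ) * Real.log D) := ⟨_, rfl⟩
  rw [← hc] at hc0 hc1 ⊢
  obtain ⟨s, hs⟩ : ∃ s : ℝ, s = 1 - c * η := ⟨_, rfl⟩
  rw [← hs]
  have hcη : c * η < 1 := by nlinarith
  have hcη0 : 0 < c * η := by positivity
  have hs0 : 0 < s := by linarith
  have h2s : (2 : ℝ) ^ (-s) < 1 := Real.rpow_lt_one_of_one_lt_of_neg (by norm_num) (by linarith)
  obtain ⟨K, hK⟩ : ∃ K : ℝ, K = 2 * C / (1 - (2 : ℝ) ^ (-s)) + 1 := ⟨_, rfl⟩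
  have h1s : 0 < 1 - (2 : ℝ) ^ (-s) := by linarith
  have hK1 : 1 ≤ K := by
    rw [hK]
    have : 0 ≤ 2 * C / (1 - (2 : ℝ) ^ (-s)) := by positivity
    linarith
  have hKC : 2 * C ≤ K * (1 - (2 : ℝ) ^ (-s)) := by
    rw [hK, add_mul, div_mul_cancel₀ _ h1s.ne']
    linarith
  refine ⟨K, fun X => ?_⟩
  induction X using Nat.strong_induction_on with
  | _ X ih =>
    intro hX
    have hfin : ∀ Y : ℕ, {n : ℕ | 1 ≤ n ∧ n ≤ Y ∧ ¬ ComesDown D η n}.Finite := fun Y =>
      (Set.finite_Icc 1 Y).subset fun n hn => ⟨hn.1, hn.2.1⟩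
    rcases Nat.lt_or_ge X 2 with h2 | h2
    · have hX1 : X = 1 := by omega
      subst hX1
      have h3 : {n : ℕ | 1 ≤ n ∧ n ≤ 1 ∧ ¬ ComesDown D η n} ⊆ {1} := by
        rintro n ⟨h3, h4, -⟩
        exact le_antisymm h4 h3
      have h4 := Set.ncard_le_ncard h3 (Set.finite_singleton 1)
      rw [Set.ncard_singleton] at h4
      have h5 : (({n : ℕ | 1 ≤ n ∧ n ≤ 1 ∧ ¬ ComesDown D η n}.ncard : ℕ) : ℝ) ≤ 1 := by exact_mod_cast h4
      rw [Nat.cast_one, Real.one_rpow]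
      linarith
    · obtain ⟨Y, hY⟩ : ∃ Y : ℕ, Y = X / 2 := ⟨_, rfl⟩
      have hY1 : 1 ≤ Y := by omega
      have hYX : Y < X := by omega
      have hXR : (2 : ℝ) ≤ X := by exact_mod_cast h2
      have hX0 : (0 : ℝ) < X := by linarith
      have hYR : (Y : ℝ) ≤ X / 2 := by
        rw [le_div_iff₀ (by norm_num)]
        have : Y * 2 ≤ X := by omega
        exact_mod_cast this
      have i1 := ih Y hYX hY1
      obtain ⟨y, hy⟩ : ∃ y : ℝ, y = ((X : ℝ) / 2) ^ η := ⟨_, rfl⟩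
      have hy1 : 1 ≤ y := by
        rw [hy]
        exact Real.one_le_rpow (by linarith) hη.le
      have i2 := (h X y (by linarith) hy1).1
      rw [← hc] at i2
      have hfin2 : {n : ℕ | 1 ≤ n ∧ (n : ℝ) ≤ X ∧ ∀ k : ℕ, y < (((PowerSaving.F D)^[k] n : ℕ) : ℝ)}.Finite :=
        (Set.finite_Icc 1 X).subset fun n hn => ⟨hn.1, by exact_mod_cast hn.2.1⟩
      have hsub : {n : ℕ | 1 ≤ n ∧ n ≤ X ∧ ¬ ComesDown D η n} ⊆
          {n : ℕ | 1 ≤ n ∧ n ≤ Y ∧ ¬ ComesDown D η n} ∪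
          {n : ℕ | 1 ≤ n ∧ (n : ℝ) ≤ X ∧ ∀ k : ℕ, y < (((PowerSaving.F D)^[k] n : ℕ) : ℝ)} := by
        rintro n ⟨g1, g2, g3⟩
        rcases Nat.lt_or_ge Y n with g4 | g4
        · right
          refine ⟨g1, by exact_mod_cast g2, fun k => ?_⟩
          unfold ComesDown at g3
          push Not at g3
          refine lt_of_le_of_lt ?_ (g3 k)
          rw [hy]
          apply Real.rpow_le_rpow (by positivity) _ hη.le
          rw [div_le_iff₀ (by norm_num)]
          have : X ≤ n * 2 := by omega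
          exact_mod_cast this
        · left
          exact ⟨g1, g4, g3⟩
      have j1 : ({n : ℕ | 1 ≤ n ∧ n ≤ X ∧ ¬ ComesDown D η n}.ncard : ℝ) ≤
          ({n : ℕ | 1 ≤ n ∧ n ≤ Y ∧ ¬ ComesDown D η n}.ncard : ℝ) +
          ({n : ℕ | 1 ≤ n ∧ (n : ℝ) ≤ X ∧ ∀ k : ℕ, y < (((PowerSaving.F D)^[k] n : ℕ) : ℝ)}.ncard : ℝ) := by
        have := (Set.ncard_le_ncard hsub ((hfin Y).union hfin2)).trans (Set.ncard_union_le _ _)
        exact_mod_cast this
      have j2 : K * (Y : ℝ) ^ s ≤ K * (2 : ℝ) ^ (-s) * (X : ℝ) ^ s := by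
        have : (Y : ℝ) ^ s ≤ (2 : ℝ) ^ (-s) * (X : ℝ) ^ s := by
          calc (Y : ℝ) ^ s ≤ ((X : ℝ) / 2) ^ s := Real.rpow_le_rpow (Nat.cast_nonneg _) hYR hs0.le
            _ = (2 : ℝ) ^ (-s) * (X : ℝ) ^ s := by
                rw [Real.div_rpow hX0.le (by norm_num), Real.rpow_neg (by norm_num)]
                ring
        calc K * (Y : ℝ) ^ s ≤ K * ((2 : ℝ) ^ (-s) * (X : ℝ) ^ s) := mul_le_mul_of_nonneg_left this (by linarith)
          _ = _ := by ring
      have j3 : C * X / y ^ c ≤ 2 * C * (X : ℝ) ^ s := by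
        have e1 : y ^ c = ((X : ℝ) / 2) ^ (c * η) := by
          rw [hy, ← Real.rpow_mul (by positivity)]
          ring_nf
        have e2 : ((X : ℝ)) ^ (c * η) ≤ 2 * ((X : ℝ) / 2) ^ (c * η) := by
          have e3 : (X : ℝ) = 2 * ((X : ℝ) / 2) := by ring
          have e4 : (2 : ℝ) ^ (c * η) ≤ 2 := by
            calc (2 : ℝ) ^ (c * η) ≤ (2 : ℝ) ^ (1 : ℝ) :=
                  Real.rpow_le_rpow_of_exponent_le (by norm_num) hcη.le
              _ = 2 := Real.rpow_one 2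
          calc (X : ℝ) ^ (c * η) = (2 * ((X : ℝ) / 2)) ^ (c * η) := by rw [← e3]
            _ = (2 : ℝ) ^ (c * η) * ((X : ℝ) / 2) ^ (c * η) := Real.mul_rpow (by norm_num) (by positivity)
            _ ≤ _ := mul_le_mul_of_nonneg_right e4 (by positivity)
        rw [e1, div_le_iff₀ (by positivity)]
        have e5 : (X : ℝ) = (X : ℝ) ^ s * (X : ℝ) ^ (c * η) := by
          rw [← Real.rpow_add hX0, hs, sub_add_cancel, Real.rpow_one]
        have e6 : 0 < (X : ℝ) ^ s := by positivity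
        calc C * (X : ℝ) = C * ((X : ℝ) ^ s * (X : ℝ) ^ (c * η)) := by rw [← e5]
          _ ≤ C * ((X : ℝ) ^ s * (2 * ((X : ℝ) / 2) ^ (c * η))) := by
              apply mul_le_mul_of_nonneg_left _ hC.le
              exact mul_le_mul_of_nonneg_left e2 e6.le
          _ = _ := by ring
      have e6 : 0 < (X : ℝ) ^ s := by positivity
      nlinarith

/-- **Theorem.** Let `f` be multiplicative and positive, of at most polynomial growth, with `f p ≤ M p` at the large primes,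
and injective there. Let `D ≥ 2`, `0 < η ≤ 1`, let `G` have steps `≥ a > 0` and growth at most `v ^ d`, `κ ≥ 0` and
`d (1 - η / (30 D log D)) + κ < 1`. Then for every `U` and all large `N`: for all `m ≤ N` but `N / (log N) ^ U`, the orbit of
EVERY integer `n ≥ 1` with `|n - G (f m)| ≤ f(m) ^ κ` under `F_D` comes down to a value `≤ n ^ η`. Euler's function and the
sum of the divisors are examples of such functions `f`, and `α v ^ d` with `α > 0`, `d ≥ 1` is an example of `G`. -/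
theorem result :
    (∀ f : ℕ → ℕ, LM f → ∀ (G : ℕ → ℝ) (d : ℝ), Expanding G d → ∀ (D : ℕ) (η κ : ℝ), 2 ≤ D → 0 < η → η ≤ 1 → 0 ≤ κ →
      d * (1 - 1 / (30 * (D : ℝ) * Real.log D) * η) + κ < 1 → ∀ U : ℕ, ∃ N₀ : ℕ, ∀ N : ℕ, N₀ ≤ N →
        ({m : ℕ | 1 ≤ m ∧ m ≤ N ∧ ¬ ∀ n : ℕ, 1 ≤ n → |(n : ℝ) - G (f m)| ≤ (f m : ℝ) ^ κ →
          ComesDown D η n}.ncard : ℝ) ≤ N / Real.log N ^ U) ∧
    (LM Nat.totient ∧ LM (fun m => ∑ d ∈ m.divisors, d)) ∧
    ∀ α d : ℝ, 0 < α → 1 ≤ d → Expanding (fun v => α * (v : ℝ) ^ d) d := by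
  refine ⟨fun f hf G d hG D η κ hD hη hη1 hκ h1 U => ?_, ⟨lm_totient, lm_sigma⟩, fun α d hα hd => expanding_pow hα hd⟩
  obtain ⟨hc0, hc1⟩ := cpos hD
  obtain ⟨K, hK⟩ := count D hD η hη hη1
  obtain ⟨N₀, hN₀⟩ := Pool.Agent.N760.TG.keep_good_nat_unif hf hG
    (s := 1 - 1 / (30 * (D : ℝ) * Real.log D) * η) (by nlinarith) hκ h1 K U
  refine ⟨N₀, fun N hN => ?_⟩
  refine le_trans (le_of_eq ?_) (hN₀ (fun n : ℕ => ¬ ComesDown D η n) hK N hN)
  congr 2
  ext m
  simp only [Set.mem_ofPred_eq]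
  push Not
  rfl

end Pool.Agent.Results.MP_5317dd_nt.MultiplicativeValues
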